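import Mathlib
import Pool.Agent.H317.GR.StmB

/-!
# Project GR, task B5 (helper640): determinant one, and congruences
-/

set_option autoImplicit false

namespace Pool.Agent.H640.GR

open Matrix Module
open Pool.Agent.H317.GR

theorem zmod_zero_iff {m : ℕ} (hm : 0 < m) (x : ZMod m) :
    x = 0 ↔ ∀ (p k : ℕ), p.Prime → ∀ h : p ^ k ∣ m, ZMod.castHom h (ZMod (p ^ k)) x = 0 := by
  have : NeZero m := ⟨hm.ne'⟩
  constructor
  · rintro rfl p k _ h
    exact map_zero _
  · intro H
    have hx : (x.val : ZMod m) = x := ZMod.natCast_zmod_val x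
    have hd : m ∣ x.val := by
      rw [Nat.dvd_iff_prime_pow_dvd_dvd]
      intro p k hp hpk
      have h1 := H p k hp hpk
      rw [← hx, map_natCast] at h1
      exact (ZMod.natCast_eq_zero_iff _ _).1 h1
    rw [← hx]
    exact (ZMod.natCast_eq_zero_iff _ _).2 hd

theorem sl_one_iff {n m : ℕ} (hm : 0 < m) (X : SpecialLinearGroup (Fin n) (ZMod m)) :
    X = 1 ↔ ∀ (p k : ℕ), p.Prime → ∀ h : p ^ k ∣ m,
      SpecialLinearGroup.map (ZMod.castHom h (ZMod (p ^ k))) X = 1 := by
  constructor
  · rintro rfl p k _ h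
    exact map_one _
  · intro H
    ext i j
    rw [← sub_eq_zero, zmod_zero_iff hm]
    intro p k hp h
    have h1 : ZMod.castHom h (ZMod (p ^ k)) (X.val i j) =
        (1 : Matrix (Fin n) (Fin n) (ZMod (p ^ k))) i j :=
      congrArg (fun Y : SpecialLinearGroup (Fin n) (ZMod (p ^ k)) => Y.val i j) (H p k hp h)
    have h2 : ZMod.castHom h (ZMod (p ^ k)) ((1 : Matrix (Fin n) (Fin n) (ZMod m)) i j) =
        (1 : Matrix (Fin n) (Fin n) (ZMod (p ^ k))) i j := by
      rw [Matrix.one_apply, Matrix.one_apply]
      split_ifs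
      · exact map_one _
      · exact map_zero _
    rw [map_sub]
    exact sub_eq_zero.2 (h1.trans h2.symm)

theorem map_int_comp {n m : ℕ} {p k : ℕ} (h : p ^ k ∣ m) (X : SpecialLinearGroup (Fin n) ℤ) :
    SpecialLinearGroup.map (ZMod.castHom h (ZMod (p ^ k)))
      (SpecialLinearGroup.map (Int.castRingHom (ZMod m)) X) =
      SpecialLinearGroup.map (Int.castRingHom (ZMod (p ^ k))) X := by
  ext i j
  simp only [SpecialLinearGroup.map_apply_coe, RingHom.mapMatrix_apply, Matrix.map_apply,
    eq_intCast, map_intCast]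

/-- **MOD**. -/
theorem mod : S_MOD := by
  intro n Λ _ f hf σ H
  have hdet : ∀ g, (σ g).val.det = 1 := by
    intro g
    have : Fact (Nat.Prime 2) := ⟨Nat.prime_two⟩
    obtain ⟨ρ, T, -, hT⟩ := H 2
    have h1 := congrArg (fun Y : GL (Fin n) ℤ_[2] => Y.val.det) (hT g)
    simp only [Units.val_mul, Matrix.det_mul] at h1
    have hTu : IsUnit (T.val.det) := (Matrix.isUnit_iff_isUnit_det _).1 T.isUnit
    have h2 : (SpecialLinearGroup.toGL (ρ g)).val.det = 1 := (ρ g).det_coe
    rw [h2, mul_one] at h1
    have h3 : (GeneralLinearGroup.map (Int.castRingHom ℤ_[2]) (σ g)).val.det = 1 := by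
      have := hTu.mul_right_cancel (h1.trans (one_mul _).symm)
      exact this
    have h4 : (GeneralLinearGroup.map (Int.castRingHom ℤ_[2]) (σ g)).val.det =
        ((σ g).val.det : ℤ_[2]) := by
      have e : (GeneralLinearGroup.map (Int.castRingHom ℤ_[2]) (σ g)).val =
          (Int.castRingHom ℤ_[2]).mapMatrix (σ g).val := rfl
      rw [e, ← RingHom.map_det]
      rfl
    rw [h4] at h3
    exact_mod_cast h3
  let σ' : Λ →* SZ n :=
    { toFun := fun g => ⟨(σ g).val, hdet g⟩
      map_one' := by
        apply Subtype.ext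
        simp
      map_mul' := by
        intro a b
        apply Subtype.ext
        have e : (σ (a * b)).val = (σ a).val * (σ b).val := by
          rw [map_mul]
          rfl
        exact e }
  refine ⟨σ', fun g => rfl, ?_⟩
  have key : ∀ (p k : ℕ), p.Prime → ∀ g,
      SpecialLinearGroup.map (Int.castRingHom (ZMod (p ^ k))) (σ' g) = 1 ↔ f (p ^ k) g = 1 := by
    intro p k hp g
    have : Fact p.Prime := ⟨hp⟩
    obtain ⟨ρ, T, hρ, hT⟩ := H p
    rw [← hρ k g]
    have h1 := congrArg (fun Y : GL (Fin n) ℤ_[p] =>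
      GeneralLinearGroup.map (PadicInt.toZModPow k) Y) (hT g)
    simp only [map_mul] at h1
    have e1 : (GeneralLinearGroup.map (PadicInt.toZModPow k)
        (GeneralLinearGroup.map (Int.castRingHom ℤ_[p]) (σ g))) =
        SpecialLinearGroup.toGL (SpecialLinearGroup.map (Int.castRingHom (ZMod (p ^ k))) (σ' g)) := by
      ext i j
      have e0 : (PadicInt.toZModPow (p := p) k).comp (Int.castRingHom ℤ_[p]) =
          Int.castRingHom (ZMod (p ^ k)) := RingHom.ext_int _ _
      exact congrArg (fun r : ℤ →+* ZMod (p ^ k) => r ((σ g).val i j)) e0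
    have e2 : (GeneralLinearGroup.map (PadicInt.toZModPow k) (SpecialLinearGroup.toGL (ρ g))) =
        SpecialLinearGroup.toGL (SpecialLinearGroup.map (PadicInt.toZModPow (p := p) k) (ρ g)) := by
      ext i j
      rfl
    rw [e1, e2] at h1
    have inj : Function.Injective (SpecialLinearGroup.toGL :
        SpecialLinearGroup (Fin n) (ZMod (p ^ k)) → GL (Fin n) (ZMod (p ^ k))) :=
      SpecialLinearGroup.toGL_injective
    set T' := GeneralLinearGroup.map (PadicInt.toZModPow (p := p) k) T
    constructor
    · intro h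
      rw [h, map_one, one_mul] at h1
      apply inj
      rw [map_one]
      exact (mul_left_cancel ((mul_one T').trans h1)).symm
    · intro h
      rw [h, map_one, mul_one] at h1
      apply inj
      rw [map_one]
      exact mul_right_cancel (h1.trans (one_mul T').symm)
  intro m hm g
  rw [sl_one_iff hm, sl_one_iff hm]
  refine forall_congr' fun p => forall_congr' fun k => forall_congr' fun hp =>
    forall_congr' fun h => ?_
  rw [map_int_comp h, key p k hp g, hf (p ^ k) m h hm g]

end Pool.Agent.H640.GR
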